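import Pool.Agent.Helper19.SQ.GoalsS
import Pool.Agent.Helper28.SQ.SPAN
import Pool.Agent.Helper96.SQ.ZB
import Pool.Agent.Helper16.SQ.HC

/-!
# Project SQ (MP_bb32d1_al): common lemmas for the packets TFK, TFE, TFF, TFD
-/

set_option autoImplicit false

namespace Pool.Agent.Helper40.SQU

open Pool.Agent.Helper19.SQ Pool.Agent.Helper28.SQ

noncomputable section

section Gen

variable {B : Type} [Ring B] [Algebra ℂ B]

/-- products over a list of factors that commute with `x` up to scalars. -/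
theorem list_comm {α : Type} (x : B) (f : α → B) (c : α → ℂ) : ∀ L : List α,
    (∀ a ∈ L, x * f a = c a • (f a * x)) →
    x * (L.map f).prod = (L.map c).prod • ((L.map f).prod * x) := by
  intro L
  induction L with
  | nil => intro _; simp
  | cons a L ih =>
    intro h
    have h1 := h a List.mem_cons_self
    have h2 := ih fun b hb => h b (List.mem_cons_of_mem _ hb)
    rw [List.map_cons, List.map_cons, List.prod_cons, List.prod_cons, ← mul_assoc, h1,
      smul_mul_assoc, mul_assoc, h2, mul_smul_comm, smul_smul, mul_assoc]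

theorem pow_comm (x y : B) (c : ℂ) (h : x * y = c • (y * x)) (n : ℕ) :
    x * y ^ n = c ^ n • (y ^ n * x) := by
  induction n with
  | zero => simp
  | succ n ih =>
    rw [pow_succ, ← mul_assoc, ih, smul_mul_assoc, mul_assoc, h, mul_smul_comm, smul_smul,
      ← pow_succ, mul_assoc]

/-- the scalar for a root vector. -/
def cwr (s : ℕ → ℂ) (d i : ℕ) : ℂ := ∏ m ∈ Finset.range (d + 1), s (i + m)

theorem cwr_succ (s : ℕ → ℂ) (d i : ℕ) : cwr s (d + 1) i = s i * cwr s d (i + 1) := by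
  unfold cwr
  rw [Finset.prod_range_succ', mul_comm]
  congr 1
  exact Finset.prod_congr rfl fun m _ => by rw [show i + (m + 1) = i + 1 + m by ring]

theorem rvA_comm (q : ℂ) (x : B) (E : ℕ → B) (s : ℕ → ℂ) (h : ∀ i, x * E i = s i • (E i * x))
    (d : ℕ) : ∀ i, x * rvA q E d i = cwr s d i • (rvA q E d i * x) := by
  induction d with
  | zero => intro i; simp only [rvA, cwr, Finset.range_one, Finset.prod_singleton, zero_add, add_zero]; exact h i
  | succ d ih =>
    intro i
    have e : rvA q E (d + 1) i = E i * rvA q E d (i + 1) - q⁻¹ • (rvA q E d (i + 1) * E i) := rfl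
    rw [e, mul_sub, sub_mul, mul_smul_comm, smul_mul_assoc, ← mul_assoc, h, smul_mul_assoc,
      mul_assoc, ih, mul_smul_comm, smul_smul, ← mul_assoc x, ih, smul_mul_assoc, mul_assoc _ x, h,
      mul_smul_comm, smul_smul, cwr_succ]
    simp only [mul_assoc]
    module

/-- the scalar for a monomial. -/
def cw (N : ℕ) (s : ℕ → ℂ) (b : ℕ → ℕ → ℕ) : ℂ :=
  ((List.range N).map fun i => ((List.range (N - i)).map fun d =>
    cwr s d i ^ b i (i + 1 + d)).prod).prod

theorem mon_comm (N : ℕ) (q : ℂ) (x : B) (E : ℕ → B) (s : ℕ → ℂ)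
    (h : ∀ i, x * E i = s i • (E i * x)) (b : ℕ → ℕ → ℕ) :
    x * mon N q E b = cw N s b • (mon N q E b * x) := by
  unfold mon cw
  apply list_comm
  intro i _
  unfold rowM
  apply list_comm
  intro d _
  apply pow_comm
  have e : rv q E i (i + 1 + d) = rvA q E d i := by
    unfold rv
    congr 1
    omega
  rw [e]
  exact rvA_comm q x E s h d i

theorem cwr_inv (s : ℕ → ℂ) (d i : ℕ) : cwr (fun i => (s i)⁻¹) d i = (cwr s d i)⁻¹ := by
  unfold cwr
  rw [Finset.prod_inv_distrib]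

theorem cw_inv (N : ℕ) (s : ℕ → ℂ) (b : ℕ → ℕ → ℕ) :
    cw N (fun i => (s i)⁻¹) b = (cw N s b)⁻¹ := by
  unfold cw
  simp only [cwr_inv, inv_pow]
  rw [List.prod_inv]
  rw [List.map_map]
  refine congrArg List.prod (List.map_congr_left fun i _ => ?_)
  rw [Function.comp_apply, List.prod_inv, List.map_map]
  rfl

theorem cwr_ne (s : ℕ → ℂ) (hs : ∀ i, s i ≠ 0) (d i : ℕ) : cwr s d i ≠ 0 :=
  Finset.prod_ne_zero_iff.2 fun _ _ => hs _

theorem cw_ne (N : ℕ) (s : ℕ → ℂ) (hs : ∀ i, s i ≠ 0) (b : ℕ → ℕ → ℕ) : cw N s b ≠ 0 := by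
  unfold cw
  apply List.prod_ne_zero
  rw [List.mem_map]
  rintro ⟨i, _, h⟩
  revert h
  apply List.prod_ne_zero
  rw [List.mem_map]
  rintro ⟨d, _, h⟩
  exact pow_ne_zero _ (cwr_ne s hs d i) h

end Gen

section K

variable {N l : ℕ} {q : ℂ}

/-- partial products of powers of the `K`'s. -/
def kp {B : Type} [Ring B] (K : ℕ → B) (n : ℕ) (κ : ℕ → ℕ) : B :=
  ((List.range n).map fun j => K j ^ κ j).prod

theorem kp_succ {B : Type} [Ring B] (K : ℕ → B) (n : ℕ) (κ : ℕ → ℕ) :
    kp K (n + 1) κ = kp K n κ * K n ^ κ n := by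
  unfold kp
  rw [List.range_succ, List.map_append, List.prod_append]
  simp

theorem kp_comm {B : Type} [Ring B] (K : ℕ → B) (hK : ∀ i j, K i * K j = K j * K i) (n : ℕ)
    (κ : ℕ → ℕ) (i : ℕ) : Commute (K i) (kp K n κ) := by
  induction n with
  | zero => unfold kp; simp
  | succ n ih =>
    rw [kp_succ]
    exact ih.mul_right (Commute.pow_right (hK i n) _)

theorem kp_mul {B : Type} [Ring B] (K : ℕ → B) (hK : ∀ i j, K i * K j = K j * K i) (n : ℕ)
    (κ κ' : ℕ → ℕ) : kp K n κ * kp K n κ' = kp K n (fun j => κ j + κ' j) := by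
  induction n with
  | zero => unfold kp; simp
  | succ n ih =>
    rw [kp_succ, kp_succ, kp_succ, ← ih, pow_add]
    have h : Commute (K n ^ κ n) (kp K n κ') := (kp_comm K hK n κ' n).pow_left _
    rw [mul_assoc, ← mul_assoc (K n ^ κ n), h.eq]
    simp only [mul_assoc]

theorem kp_congr {B : Type} [Ring B] (K : ℕ → B) (n : ℕ) (κ κ' : ℕ → ℕ)
    (h : ∀ j < n, K j ^ κ j = K j ^ κ' j) : kp K n κ = kp K n κ' := by
  unfold kp
  refine congrArg List.prod (List.map_congr_left fun j hj => h j (List.mem_range.1 hj))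

theorem kp_single {B : Type} [Ring B] (K : ℕ → B) (n j e : ℕ) (hj : j < n) :
    kp K n (fun i => if i = j then e else 0) = K j ^ e := by
  induction n with
  | zero => omega
  | succ n ih =>
    rw [kp_succ]
    by_cases h : j = n
    · subst h
      rw [if_pos rfl]
      have : kp K j (fun i => if i = j then e else 0) = 1 := by
        rw [kp_congr K j _ (fun _ => 0) (fun i hi => by rw [if_neg (by omega)])]
        unfold kp
        apply List.prod_eq_one
        intro x hx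
        obtain ⟨i, _, rfl⟩ := List.mem_map.1 hx
        rw [pow_zero]
      rw [this, one_mul]
    · rw [if_neg (by omega), pow_zero, mul_one, ih (by omega)]

theorem kmon_eq {B : Type} [Ring B] (N : ℕ) (K : ℕ → B) (κ : ℕ → ℕ) :
    kmon N K κ = kp K (N + 1) κ := rfl

theorem K_pow_mod (κ j : ℕ) : gK N l q j ^ κ = gK N l q j ^ (κ % l) := by
  conv_lhs => rw [← Nat.div_add_mod κ l, pow_add, pow_mul, (glA N l q).K_pow, one_pow, one_mul]

/-- scalar for moving `x` through the `K`'s. -/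
theorem kp_smul {B : Type} [Ring B] [Algebra ℂ B] (x : B) (K : ℕ → B) (c : ℕ → ℂ)
    (h : ∀ j, x * K j = c j • (K j * x)) (n : ℕ) (κ : ℕ → ℕ) :
    x * kp K n κ = ((List.range n).map fun j => c j ^ κ j).prod • (kp K n κ * x) := by
  unfold kp
  apply list_comm
  intro j _
  exact pow_comm x (K j) (c j) (h j) _

theorem E_K (hq : q ≠ 0) (k j : ℕ) :
    gE N l q k * gK N l q j = (q ^ pr j k)⁻¹ • (gK N l q j * gE N l q k) := by
  rw [(glA N l q).KE, smul_smul, inv_mul_cancel₀ (zpow_ne_zero _ hq), one_smul]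

theorem F_K (hq : q ≠ 0) (k j : ℕ) :
    gF N l q k * gK N l q j = (q ^ pr j k) • (gK N l q j * gF N l q k) := by
  rw [(glA N l q).KF, smul_smul, ← zpow_add₀ hq, add_neg_cancel, zpow_zero, one_smul]

end K

section T

variable {N l : ℕ} {q : ℂ}

theorem topE_at {i j : ℕ} (h : i < j ∧ j ≤ N) : topE N l i j = l - 1 := by
  unfold topE
  rw [if_pos h]

/-- value of `t` on all monomials. -/
theorem t_mon (hl : 0 < l) {t : A N l q →ₗ[ℂ] ℂ} (hT : IsT N l q t) (c d : ℕ → ℕ → ℕ)
    (hc : Supp N c) (hd : Supp N d) (κ : ℕ → ℕ) :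
    t (mon N q (gF N l q) c * kmon N (gK N l q) κ * mon N q (gE N l q) d)
      = by
        classical
        exact if c = topE N l ∧ (∀ j, j ≤ N → l ∣ κ j) ∧ d = topE N l then 1 else 0 := by
  by_cases h1 : ∃ i j, i < j ∧ j ≤ N ∧ l ≤ c i j
  · obtain ⟨i, j, hij, hj, hb⟩ := h1
    rw [mon_zero (glA N l q).pF hij hj hb, zero_mul, zero_mul, map_zero, if_neg]
    rintro ⟨h, _, _⟩
    rw [h, topE_at ⟨hij, hj⟩] at hb
    omega
  by_cases h2 : ∃ i j, i < j ∧ j ≤ N ∧ l ≤ d i j
  · obtain ⟨i, j, hij, hj, hb⟩ := h2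
    rw [mon_zero (glA N l q).pE hij hj hb, mul_zero, map_zero, if_neg]
    rintro ⟨_, _, h⟩
    rw [h, topE_at ⟨hij, hj⟩] at hb
    omega
  push Not at h1 h2
  have hc' : IsEx N l c := fun i j => ⟨fun h => h1 i j h.1 h.2, hc i j⟩
  have hd' : IsEx N l d := fun i j => ⟨fun h => h2 i j h.1 h.2, hd i j⟩
  have h3 := hT (⟨c, hc'⟩, (fun j => ⟨κ j % l, Nat.mod_lt _ hl⟩), ⟨d, hd'⟩)
  have h4 : pb N l q (⟨c, hc'⟩, (fun j => ⟨κ j % l, Nat.mod_lt _ hl⟩), ⟨d, hd'⟩)
      = mon N q (gF N l q) c * kmon N (gK N l q) κ * mon N q (gE N l q) d := by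
    unfold pb
    congr 2
    rw [kmon_eq, kmon_eq]
    apply kp_congr
    intro j hj
    rw [K_pow_mod (κ j)]
    congr 1
    unfold kx
    rw [dif_pos hj]
  rw [h4] at h3
  rw [h3]
  have h5 : (c = topE N l ∧ (∀ j : Fin (N + 1), κ j % l = 0) ∧ d = topE N l) ↔
      (c = topE N l ∧ (∀ j, j ≤ N → l ∣ κ j) ∧ d = topE N l) := by
    have h6 : (∀ j : Fin (N + 1), κ j % l = 0) ↔ (∀ j, j ≤ N → l ∣ κ j) := by
      constructor
      · intro h j hj
        exact Nat.dvd_of_mod_eq_zero (h ⟨j, by omega⟩)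
      · intro h j
        exact Nat.mod_eq_zero_of_dvd (h j (by have := j.2; omega))
    rw [h6]
  by_cases h7 : c = topE N l ∧ (∀ j, j ≤ N → l ∣ κ j) ∧ d = topE N l
  · rw [if_pos h7]
    exact if_pos (h5.2 h7)
  · rw [if_neg h7]
    exact if_neg fun h8 => h7 (h5.1 h8)

/-- induction over the PBW monomials. -/
theorem pbw_ind (hPBWS : S_PBWS) (hpar : Par N l q) {P : A N l q → Prop}
    (h0 : P 0) (hadd : ∀ x y, P x → P y → P (x + y)) (hsm : ∀ (c : ℂ) x, P x → P (c • x))
    (hm : ∀ (a b : ℕ → ℕ → ℕ) (κ : ℕ → ℕ), IsEx N l a → IsEx N l b →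
      P (mon N q (gF N l q) a * kmon N (gK N l q) κ * mon N q (gE N l q) b)) (x : A N l q) :
    P x := by
  have hx : x ∈ Submodule.span ℂ (Set.range (pb N l q)) := by rw [hPBWS N l q hpar]; trivial
  induction hx using Submodule.span_induction with
  | mem y hy =>
    obtain ⟨z, rfl⟩ := hy
    exact hm _ _ _ z.1.2 z.2.2.2
  | zero => exact h0
  | add y z _ _ hy hz => exact hadd _ _ hy hz
  | smul c y _ hy => exact hsm _ _ hy

theorem supp_of_ex {b : ℕ → ℕ → ℕ} (h : IsEx N l b) : Supp N b := fun i j => (h i j).2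

end T

end

end Pool.Agent.Helper40.SQU
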