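import Pool.Agent.Helper40.SQU.TB

/-!
# Project SQ (MP_bb32d1_al): commutators with words
-/

set_option autoImplicit false

namespace Pool.Agent.Helper40.SQU

open Pool.Agent.Helper19.SQ Pool.Agent.Helper28.SQ

noncomputable section

variable {N l : ℕ} {q : ℂ}

/-- the two products of `K`'s that occur in `[E_k, F_k]`. -/
def gk (N l : ℕ) (q : ℂ) (k : ℕ) (e : Bool) : A N l q :=
  if e then gK N l q k * gK N l q (k + 1) ^ (l - 1) else gK N l q k ^ (l - 1) * gK N l q (k + 1)

theorem gk_kmon (k : ℕ) (hk : k < N) (e : Bool) : ∃ κ : ℕ → ℕ,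
    gk N l q k e = kmon N (gK N l q) κ := by
  cases e
  · refine ⟨fun i => (if i = k then l - 1 else 0) + if i = k + 1 then 1 else 0, ?_⟩
    rw [kmon_eq, ← kp_mul _ (glA N l q).K_comm, kp_single _ _ _ _ (by omega),
      kp_single _ _ _ _ (by omega), pow_one]
    rfl
  · refine ⟨fun i => (if i = k then 1 else 0) + if i = k + 1 then l - 1 else 0, ?_⟩
    rw [kmon_eq, ← kp_mul _ (glA N l q).K_comm, kp_single _ _ _ _ (by omega),
      kp_single _ _ _ _ (by omega), pow_one]
    rfl

theorem EF_all (k i : ℕ) : ∃ c : Bool → ℂ, gE N l q k * gF N l q i - gF N l q i * gE N l q k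
    = c true • gk N l q k true + c false • gk N l q k false := by
  by_cases h : k = i
  · subst h
    by_cases hk : k < N
    · refine ⟨fun e => if e then (q - q⁻¹)⁻¹ else -(q - q⁻¹)⁻¹, ?_⟩
      rw [(glA N l q).EF k hk]
      simp only [gk, if_true, Bool.false_eq_true, if_false, smul_sub, neg_smul]
      abel
    · refine ⟨fun _ => 0, ?_⟩
      rw [(glA N l q).E_out k (by omega)]
      simp
  · refine ⟨fun _ => 0, ?_⟩
    rw [(glA N l q).EF_ne k i h]
    simp

theorem K_word (j : ℕ) (E : ℕ → A N l q) (s : ℕ → ℂ)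
    (h : ∀ i, gK N l q j * E i = s i • (E i * gK N l q j)) (w : List ℕ) :
    ∃ c : ℂ, gK N l q j * (w.map E).prod = c • ((w.map E).prod * gK N l q j) :=
  ⟨_, list_comm _ _ s w fun i _ => h i⟩

/-- commuting up to a scalar is stable under products on the left. -/
theorem sc_mul (x y z : A N l q) (h1 : ∃ c : ℂ, x * z = c • (z * x))
    (h2 : ∃ c : ℂ, y * z = c • (z * y)) : ∃ c : ℂ, (x * y) * z = c • (z * (x * y)) := by
  obtain ⟨c, hc⟩ := h1
  obtain ⟨d, hd⟩ := h2
  refine ⟨d * c, ?_⟩
  rw [mul_assoc, hd, mul_smul_comm, ← mul_assoc, hc, smul_mul_assoc, smul_smul, mul_assoc]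

theorem sc_pow (x z : A N l q) (h1 : ∃ c : ℂ, x * z = c • (z * x)) (n : ℕ) :
    ∃ c : ℂ, x ^ n * z = c • (z * x ^ n) := by
  induction n with
  | zero => exact ⟨1, by simp⟩
  | succ n ih =>
    rw [pow_succ]
    exact sc_mul _ _ _ ih h1

theorem gk_word (k : ℕ) (e : Bool) (E : ℕ → A N l q)
    (h : ∀ j i, ∃ c : ℂ, gK N l q j * E i = c • (E i * gK N l q j)) (w : List ℕ) :
    ∃ c : ℂ, gk N l q k e * (w.map E).prod = c • ((w.map E).prod * gk N l q k e) := by
  have h1 : ∀ j, ∃ c : ℂ, gK N l q j * (w.map E).prod = c • ((w.map E).prod * gK N l q j) := by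
    intro j
    choose s hs using h j
    exact K_word j E s hs w
  cases e
  · exact sc_mul _ _ _ (sc_pow _ _ (h1 k) _) (h1 (k + 1))
  · exact sc_mul _ _ _ (h1 k) (sc_pow _ _ (h1 (k + 1)) _)

theorem sc_mul' (x y z : A N l q) (h1 : ∃ c : ℂ, z * x = c • (x * z))
    (h2 : ∃ c : ℂ, z * y = c • (y * z)) : ∃ c : ℂ, z * (x * y) = c • ((x * y) * z) := by
  obtain ⟨c, hc⟩ := h1
  obtain ⟨d, hd⟩ := h2
  refine ⟨c * d, ?_⟩
  rw [← mul_assoc, hc, smul_mul_assoc, mul_assoc x z, hd, mul_smul_comm, smul_smul, mul_assoc]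

theorem sc_pow' (x z : A N l q) (h1 : ∃ c : ℂ, z * x = c • (x * z)) (n : ℕ) :
    ∃ c : ℂ, z * x ^ n = c • (x ^ n * z) := by
  induction n with
  | zero => exact ⟨1, by simp⟩
  | succ n ih =>
    rw [pow_succ]
    exact sc_mul' _ _ _ ih h1

theorem x_gk (k : ℕ) (e : Bool) (x : A N l q)
    (h : ∀ j, ∃ c : ℂ, x * gK N l q j = c • (gK N l q j * x)) :
    ∃ c : ℂ, x * gk N l q k e = c • (gk N l q k e * x) := by
  cases e
  · exact sc_mul' _ _ _ (sc_pow' _ _ (h k) _) (h (k + 1))
  · exact sc_mul' _ _ _ (h k) (sc_pow' _ _ (h (k + 1)) _)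

/-- span of `word * gk`. -/
def WR (N l : ℕ) (q : ℂ) (E : ℕ → A N l q) (k n : ℕ) : Submodule ℂ (A N l q) :=
  Submodule.span ℂ {x | ∃ (w : List ℕ) (e : Bool), w.length + 1 = n ∧
    x = (w.map E).prod * gk N l q k e}

/-- span of `gk * word`. -/
def WL (N l : ℕ) (q : ℂ) (E : ℕ → A N l q) (k n : ℕ) : Submodule ℂ (A N l q) :=
  Submodule.span ℂ {x | ∃ (w : List ℕ) (e : Bool), w.length + 1 = n ∧
    x = gk N l q k e * (w.map E).prod}

theorem KF_sc (j i : ℕ) : ∃ c : ℂ, gK N l q j * gF N l q i = c • (gF N l q i * gK N l q j) :=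
  ⟨_, (glA N l q).KF j i⟩

theorem KE_sc (j i : ℕ) : ∃ c : ℂ, gK N l q j * gE N l q i = c • (gE N l q i * gK N l q j) :=
  ⟨_, (glA N l q).KE j i⟩

/-- `[E_k, word in F]`. -/
theorem E_wordF (k : ℕ) (w : List ℕ) :
    gE N l q k * (w.map (gF N l q)).prod - (w.map (gF N l q)).prod * gE N l q k
      ∈ WR N l q (gF N l q) k w.length := by
  induction w with
  | nil => simp
  | cons i w ih =>
    obtain ⟨c, hc⟩ := EF_all (N := N) (l := l) (q := q) k i
    rw [List.map_cons, List.prod_cons, List.length_cons]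
    have e : gE N l q k * (gF N l q i * (w.map (gF N l q)).prod)
        - gF N l q i * (w.map (gF N l q)).prod * gE N l q k
        = (gE N l q k * gF N l q i - gF N l q i * gE N l q k) * (w.map (gF N l q)).prod
          + gF N l q i * (gE N l q k * (w.map (gF N l q)).prod
            - (w.map (gF N l q)).prod * gE N l q k) := by noncomm_ring
    rw [e, hc]
    refine Submodule.add_mem _ ?_ ?_
    · rw [add_mul, smul_mul_assoc, smul_mul_assoc]
      obtain ⟨c1, h1⟩ := gk_word (N := N) (l := l) (q := q) k true (gF N l q) KF_sc w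
      obtain ⟨c2, h2⟩ := gk_word (N := N) (l := l) (q := q) k false (gF N l q) KF_sc w
      rw [h1, h2]
      refine Submodule.add_mem _ (Submodule.smul_mem _ _ (Submodule.smul_mem _ _
        (Submodule.subset_span ⟨w, true, rfl, rfl⟩))) (Submodule.smul_mem _ _
        (Submodule.smul_mem _ _ (Submodule.subset_span ⟨w, false, rfl, rfl⟩)))
    · revert ih
      generalize gE N l q k * (w.map (gF N l q)).prod
            - (w.map (gF N l q)).prod * gE N l q k = r
      intro hr
      unfold WR at hr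
      induction hr using Submodule.span_induction with
      | mem x hx =>
        obtain ⟨w', e', hw, rfl⟩ := hx
        refine Submodule.subset_span ⟨i :: w', e', ?_, ?_⟩
        · rw [List.length_cons, hw]
        · rw [List.map_cons, List.prod_cons, mul_assoc]
      | zero => rw [mul_zero]; exact Submodule.zero_mem _
      | add x y _ _ hx hy => rw [mul_add]; exact Submodule.add_mem _ hx hy
      | smul c x _ hx => rw [mul_smul_comm]; exact Submodule.smul_mem _ _ hx

/-- `[word in E, F_k]`. -/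
theorem wordE_F (hq : q ≠ 0) (k : ℕ) (w : List ℕ) :
    (w.map (gE N l q)).prod * gF N l q k - gF N l q k * (w.map (gE N l q)).prod
      ∈ WL N l q (gE N l q) k w.length := by
  induction w with
  | nil => simp
  | cons i w ih =>
    obtain ⟨c, hc⟩ : ∃ c : Bool → ℂ, gE N l q i * gF N l q k - gF N l q k * gE N l q i
      = c true • gk N l q k true + c false • gk N l q k false := by
      by_cases h : i = k
      · subst h
        exact EF_all i i
      · refine ⟨fun _ => 0, ?_⟩
        rw [(glA N l q).EF_ne i k h]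
        simp
    rw [List.map_cons, List.prod_cons, List.length_cons]
    have e : gE N l q i * (w.map (gE N l q)).prod * gF N l q k
        - gF N l q k * (gE N l q i * (w.map (gE N l q)).prod)
        = (gE N l q i * gF N l q k - gF N l q k * gE N l q i) * (w.map (gE N l q)).prod
          + gE N l q i * ((w.map (gE N l q)).prod * gF N l q k
            - gF N l q k * (w.map (gE N l q)).prod) := by noncomm_ring
    rw [e, hc]
    refine Submodule.add_mem _ ?_ ?_
    · rw [add_mul, smul_mul_assoc, smul_mul_assoc]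
      refine Submodule.add_mem _ (Submodule.smul_mem _ _
        (Submodule.subset_span ⟨w, true, rfl, rfl⟩)) (Submodule.smul_mem _ _
        (Submodule.subset_span ⟨w, false, rfl, rfl⟩))
    · revert ih
      generalize (w.map (gE N l q)).prod * gF N l q k
            - gF N l q k * (w.map (gE N l q)).prod = r
      intro hr
      unfold WL at hr
      induction hr using Submodule.span_induction with
      | mem x hx =>
        obtain ⟨w', e', hw, rfl⟩ := hx
        obtain ⟨c, hc⟩ := x_gk k e' (gE N l q i) fun j => ⟨_, E_K hq i j⟩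
        rw [← mul_assoc, hc, smul_mul_assoc, mul_assoc]
        refine Submodule.smul_mem _ _ (Submodule.subset_span ⟨i :: w', e', ?_, ?_⟩)
        · rw [List.length_cons, hw]
        · rw [List.map_cons, List.prod_cons]
      | zero => rw [mul_zero]; exact Submodule.zero_mem _
      | add x y _ _ hx hy => rw [mul_add]; exact Submodule.add_mem _ hx hy
      | smul c x _ hx => rw [mul_smul_comm]; exact Submodule.smul_mem _ _ hx

/-- a submodule argument: `t` vanishes on `X * kmon * mon E b` for `X` in the span of low monomials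
times `gk`. -/
theorem t_low_left (hSPAN : S_SPAN) (hpar : Par N l q) {t : A N l q →ₗ[ℂ] ℂ}
    (hT : IsT N l q t) (k : ℕ) (hk : k < N) (n : ℕ) (hn : n ≤ ht N (topE N l)) (r : A N l q)
    (hr : r ∈ WR N l q (gF N l q) k n) (κ : ℕ → ℕ) (b : ℕ → ℕ → ℕ) (hb : IsEx N l b) :
    t (r * kmon N (gK N l q) κ * mon N q (gE N l q) b) = 0 := by
  have hl : 0 < l := by have := hpar.h3; omega
  obtain ⟨hq, hq1, hq2⟩ := Pool.Agent.Helper96.SQ.ZB.par_facts hpar
  unfold WR at hr
  induction hr using Submodule.span_induction with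
  | mem x hx =>
    obtain ⟨w, e, hw, rfl⟩ := hx
    obtain ⟨κ', hκ'⟩ := gk_kmon (N := N) (l := l) (q := q) k hk e
    have h1 := hSPAN (A N l q) N l q (gF N l q) hl hq hq1 hq2 (glA N l q).sF (glA N l q).F_out
      (glA N l q).pF w
    rw [hκ', mul_assoc _ (kmon N (gK N l q) κ'), kmon_eq, kmon_eq,
      kp_mul _ (glA N l q).K_comm, ← kmon_eq]
    generalize (w.map (gF N l q)).prod = W at h1
    induction h1 using Submodule.span_induction with
    | mem y hy =>
      obtain ⟨c, hc, hh, rfl⟩ := hy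
      rw [t_mon hl hT c b (supp_of_ex hc) (supp_of_ex hb), if_neg]
      rintro ⟨h, _, _⟩
      rw [h] at hh
      omega
    | zero => rw [zero_mul, zero_mul, map_zero]
    | add x y _ _ hx hy => rw [add_mul, add_mul, map_add, hx, hy, add_zero]
    | smul c x _ hx => rw [smul_mul_assoc, smul_mul_assoc, map_smul, hx, smul_zero]
  | zero => rw [zero_mul, zero_mul, map_zero]
  | add x y _ _ hx hy => rw [add_mul, add_mul, map_add, hx, hy, add_zero]
  | smul c x _ hx => rw [smul_mul_assoc, smul_mul_assoc, map_smul, hx, smul_zero]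

theorem t_low_right (hSPAN : S_SPAN) (hpar : Par N l q) {t : A N l q →ₗ[ℂ] ℂ}
    (hT : IsT N l q t) (k : ℕ) (hk : k < N) (n : ℕ) (hn : n ≤ ht N (topE N l)) (r : A N l q)
    (hr : r ∈ WL N l q (gE N l q) k n) (κ : ℕ → ℕ) (a : ℕ → ℕ → ℕ) (ha : IsEx N l a) :
    t (mon N q (gF N l q) a * kmon N (gK N l q) κ * r) = 0 := by
  have hl : 0 < l := by have := hpar.h3; omega
  obtain ⟨hq, hq1, hq2⟩ := Pool.Agent.Helper96.SQ.ZB.par_facts hpar
  unfold WL at hr
  induction hr using Submodule.span_induction with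
  | mem x hx =>
    obtain ⟨w, e, hw, rfl⟩ := hx
    obtain ⟨κ', hκ'⟩ := gk_kmon (N := N) (l := l) (q := q) k hk e
    have h1 := hSPAN (A N l q) N l q (gE N l q) hl hq hq1 hq2 (glA N l q).sE (glA N l q).E_out
      (glA N l q).pE w
    rw [hκ', ← mul_assoc, mul_assoc _ (kmon N (gK N l q) κ), kmon_eq, kmon_eq,
      kp_mul _ (glA N l q).K_comm, ← kmon_eq]
    generalize (w.map (gE N l q)).prod = W at h1
    induction h1 using Submodule.span_induction with
    | mem y hy =>
      obtain ⟨c, hc, hh, rfl⟩ := hy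
      rw [t_mon hl hT a c (supp_of_ex ha) (supp_of_ex hc), if_neg]
      rintro ⟨_, _, h⟩
      rw [h] at hh
      omega
    | zero => rw [mul_zero, map_zero]
    | add x y _ _ hx hy => rw [mul_add, map_add, hx, hy, add_zero]
    | smul c x _ hx => rw [mul_smul_comm, map_smul, hx, smul_zero]
  | zero => rw [mul_zero, map_zero]
  | add x y _ _ hx hy => rw [mul_add, map_add, hx, hy, add_zero]
  | smul c x _ hx => rw [mul_smul_comm, map_smul, hx, smul_zero]

/-- `E_k F^a = F^a E_k` modulo lower terms. -/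
theorem E_monF (hMONW : S_MONW) (k : ℕ) (a : ℕ → ℕ → ℕ) (ha : Supp N a) :
    gE N l q k * mon N q (gF N l q) a - mon N q (gF N l q) a * gE N l q k
      ∈ WR N l q (gF N l q) k (ht N a) := by
  have h := hMONW (A N l q) N q (gF N l q) a ha
  generalize mon N q (gF N l q) a = m at h
  induction h using Submodule.span_induction with
  | mem y hy =>
    obtain ⟨w, hw, _, rfl⟩ := hy
    have := E_wordF (N := N) (l := l) (q := q) k w
    rwa [hw] at this
  | zero => simp
  | add x y _ _ hx hy =>
    have e : gE N l q k * (x + y) - (x + y) * gE N l q k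
      = (gE N l q k * x - x * gE N l q k) + (gE N l q k * y - y * gE N l q k) := by noncomm_ring
    rw [e]
    exact Submodule.add_mem _ hx hy
  | smul c x _ hx =>
    rw [mul_smul_comm, smul_mul_assoc, ← smul_sub]
    exact Submodule.smul_mem _ _ hx

theorem monE_F (hMONW : S_MONW) (hq : q ≠ 0) (k : ℕ) (b : ℕ → ℕ → ℕ) (hb : Supp N b) :
    mon N q (gE N l q) b * gF N l q k - gF N l q k * mon N q (gE N l q) b
      ∈ WL N l q (gE N l q) k (ht N b) := by
  have h := hMONW (A N l q) N q (gE N l q) b hb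
  generalize mon N q (gE N l q) b = m at h
  induction h using Submodule.span_induction with
  | mem y hy =>
    obtain ⟨w, hw, _, rfl⟩ := hy
    have := wordE_F (N := N) (l := l) (q := q) hq k w
    rwa [hw] at this
  | zero => simp
  | add x y _ _ hx hy =>
    have e : (x + y) * gF N l q k - gF N l q k * (x + y)
      = (x * gF N l q k - gF N l q k * x) + (y * gF N l q k - gF N l q k * y) := by noncomm_ring
    rw [e]
    exact Submodule.add_mem _ hx hy
  | smul c x _ hx =>
    rw [mul_smul_comm, smul_mul_assoc, ← smul_sub]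
    exact Submodule.smul_mem _ _ hx

/-- the scalar for moving through `K^kappa` is `1` if all exponents are divisible by `l`. -/
theorem scal_one (s : ℕ → ℂ) (hs : ∀ j, s j ^ l = 1) (κ : ℕ → ℕ) (h : ∀ j, j ≤ N → l ∣ κ j) :
    ((List.range (N + 1)).map fun j => s j ^ κ j).prod = 1 := by
  apply List.prod_eq_one
  intro x hx
  obtain ⟨j, hj, rfl⟩ := List.mem_map.1 hx
  obtain ⟨c, hc⟩ := h j (by have := List.mem_range.1 hj; omega)
  rw [hc, pow_mul, hs, one_pow]

/-- target of `LM` is never the top, except for the last term. -/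
theorem mvr_ne (hl : 2 ≤ l) (b : ℕ → ℕ → ℕ) (hb : IsEx N l b) (i k : ℕ) (hik : i < k)
    (hk : k < N) : mvr b i k ≠ topE N l := by
  intro h
  have h1 := congrFun (congrFun h i) k
  rw [topE_at ⟨hik, by omega⟩] at h1
  have h2 := (hb i k).1 ⟨hik, by omega⟩
  unfold mvr inc upd at h1
  rw [if_neg (by omega), if_pos ⟨rfl, rfl⟩] at h1
  omega

theorem mvc_ne (hl : 2 ≤ l) (b : ℕ → ℕ → ℕ) (hb : IsEx N l b) (k j : ℕ) (hkj : k + 1 < j)
    (hj : j ≤ N) : mvc b k j ≠ topE N l := by
  intro h
  have h1 := congrFun (congrFun h (k + 1)) j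
  rw [topE_at ⟨hkj, by omega⟩] at h1
  have h2 := (hb (k + 1) j).1 ⟨hkj, by omega⟩
  unfold mvc inc upd at h1
  rw [if_neg (by omega), if_pos ⟨rfl, rfl⟩] at h1
  omega

theorem supp_mvc {b : ℕ → ℕ → ℕ} (hb : Supp N b) {k j : ℕ} (hkj : k + 1 < j) (hj : j ≤ N) :
    Supp N (mvc b k j) := by
  unfold mvc
  refine Supp.inc ?_ (by omega) hj
  intro x y h
  unfold upd
  rw [if_neg (by rintro ⟨rfl, rfl⟩; exact h ⟨hkj, hj⟩)]
  exact hb x y h

/-- the weights are `1` when the target is the top. -/
theorem wL_one (b : ℕ → ℕ → ℕ) (k : ℕ) (hk : k < N) (h : inc b k (k + 1) = topE N l) :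
    wL q b k k = 1 := by
  unfold wL
  apply Finset.prod_eq_one
  intro i hi
  have hi' := Finset.mem_range.1 hi
  have h1 := congrFun (congrFun h i) k
  have h2 := congrFun (congrFun h i) (k + 1)
  rw [topE_at ⟨hi', by omega⟩] at h1
  rw [topE_at ⟨by omega, by omega⟩] at h2
  unfold inc upd at h1 h2
  rw [if_neg (by omega)] at h1 h2
  rw [h1, h2, sub_self, zpow_zero]

theorem wR_one (b : ℕ → ℕ → ℕ) (k : ℕ) (hk : k < N) (h : inc b k (k + 1) = topE N l) :
    wR N q b k (k + 1) = 1 := by
  unfold wR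
  apply Finset.prod_eq_one
  intro j hj
  have hj' := Finset.mem_Ioc.1 hj
  have h1 := congrFun (congrFun h (k + 1)) j
  have h2 := congrFun (congrFun h k) j
  rw [topE_at ⟨by omega, by omega⟩] at h1
  rw [topE_at ⟨by omega, by omega⟩] at h2
  unfold inc upd at h1 h2
  rw [if_neg (by omega)] at h1 h2
  rw [h1, h2, sub_self, zpow_zero]

end

end Pool.Agent.Helper40.SQU
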